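import Pool.Agent.Run7.h427.CZ.Padic
import Pool.Agent.Run7.h427.DS.Main

/-!
# Descent of representations with open kernel over an algebraic closure of a number field
-/

set_option autoImplicit false

namespace Run7.h427.CA

open Matrix Topology Filter NumberField IsDedekindDomain Polynomial
open Run7.h427.CY Run7.h427.CZ
open Run7.h427.DS (Semis)
open Pool.Agent.W401.Cheb Pool.Agent.W528.Ord
open scoped IntermediateField

/-- The prime `p` is good for the field `E` and for `n`: the field generated over `E` by the `p`-th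
roots of unity has degree larger than `n` over `E`. -/
def GoodGlob (E : Type) [Field E] (n p : ℕ) : Prop :=
  p.Prime ∧ ∀ ζ : AlgebraicClosure E, IsPrimitiveRoot ζ p → n < Module.finrank E E⟮ζ⟯

theorem toRingEquiv_pow {E : Type} [Field E] [CharZero E]
    (τ : AlgebraicClosure E ≃ₐ[E] AlgebraicClosure E) (i : ℕ) (x : AlgebraicClosure E) :
    (τ.toRingEquiv ^ i) x = (τ ^ i) x := by
  induction i with
  | zero => rfl
  | succ i ih =>
    rw [pow_succ', pow_succ', RingAut.mul_apply, ih]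
    rfl

theorem exists_good {E : Type} [Field E] [CharZero E] {n p : ℕ} (h : GoodGlob E n p) :
    ∃ τ : AlgebraicClosure E ≃ₐ[E] AlgebraicClosure E, Good τ.toRingEquiv n p := by
  classical
  have hfact : Fact p.Prime := ⟨h.1⟩
  have hne : NeZero p := ⟨h.1.ne_zero⟩
  have hp0 : NeZero ((p : ℕ) : AlgebraicClosure E) := ⟨Nat.cast_ne_zero.mpr h.1.ne_zero⟩
  obtain ⟨ζ, hζ⟩ := HasEnoughRootsOfUnity.exists_primitiveRoot (AlgebraicClosure E) p
  let χ := hζ.autToPow E
  have hcyc : IsCyclic χ.range := inferInstance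
  obtain ⟨⟨_, ⟨τ, rfl⟩⟩, hτ⟩ := hcyc.exists_generator
  have hτ' : ∀ g : AlgebraicClosure E ≃ₐ[E] AlgebraicClosure E, ∃ j : ℤ, χ g = χ τ ^ j := by
    intro g
    obtain ⟨j, hj⟩ := Subgroup.mem_zpowers_iff.mp (hτ ⟨χ g, ⟨g, rfl⟩⟩)
    exact ⟨j, (congrArg Subtype.val hj).symm⟩
  have hχ : ∀ g g' : AlgebraicClosure E ≃ₐ[E] AlgebraicClosure E, χ g = χ g' → g ζ = g' ζ := by
    intro g g' hg
    rw [← hζ.autToPow_spec E g, ← hζ.autToPow_spec E g']
    change ζ ^ ((χ g : (ZMod p)ˣ) : ZMod p).val = ζ ^ ((χ g' : (ZMod p)ˣ) : ZMod p).val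
    rw [hg]
  refine ⟨τ, h.1, fun ζ' hζ' i hi hin hfix => ?_⟩
  rw [toRingEquiv_pow] at hfix
  -- `τ ^ i` fixes `ζ`
  have hfixζ : (τ ^ i) ζ = ζ := by
    obtain ⟨j, -, hj⟩ := hζ'.eq_pow_of_pow_eq_one hζ.pow_eq_one
    rw [← hj, map_pow, hfix]
  have hfixm : ∀ m : ℤ, (τ ^ ((i : ℤ) * m)) ζ = ζ := by
    intro m
    have h1 : τ ^ i ∈ MulAction.stabilizer (AlgebraicClosure E ≃ₐ[E] AlgebraicClosure E) ζ := hfixζ
    have h2 := Subgroup.zpow_mem _ h1 m
    rw [← zpow_natCast, ← _root_.zpow_mul] at h2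
    exact h2
  have hint : IsIntegral E ζ := hζ.isIntegral h.1.pos |>.tower_top
  have hfr := IntermediateField.adjoin.finrank hint
  have hlt := h.2 ζ hζ
  rw [hfr] at hlt
  have hsplit : ((minpoly E ζ).map (algebraMap E (AlgebraicClosure E))).Splits := IsAlgClosed.splits _
  have hcard : ((minpoly E ζ).aroots (AlgebraicClosure E)).card = (minpoly E ζ).natDegree := by
    rw [aroots_def, ← hsplit.natDegree_eq_card_roots, natDegree_map]
  have hnodup : ((minpoly E ζ).aroots (AlgebraicClosure E)).Nodup :=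
    nodup_aroots_iff_of_splits (minpoly.ne_zero hint) hsplit |>.mpr (minpoly.irreducible hint).separable
  have hsub : ((minpoly E ζ).aroots (AlgebraicClosure E)).toFinset ⊆
      (Finset.range i).image fun j => (τ ^ j) ζ := by
    intro y hy
    rw [Multiset.mem_toFinset, mem_aroots] at hy
    obtain ⟨g, hg⟩ := minpoly.exists_algEquiv_of_root' (K := E) (x := y) (y := ζ)
      hint.isAlgebraic hy.2
    obtain ⟨j, hj⟩ := hτ' g
    have h1 : g ζ = (τ ^ j) ζ := hχ g (τ ^ j) (by rw [hj, map_zpow])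
    rw [Finset.mem_image]
    have hi0 : (0 : ℤ) < i := by exact_mod_cast hi
    refine ⟨(j % i).toNat, ?_, ?_⟩
    · rw [Finset.mem_range]
      have := Int.emod_lt_of_pos j hi0
      have h0 := Int.emod_nonneg j hi0.ne'
      omega
    · rw [← hg, h1]
      have h2 : (((j % i).toNat : ℕ) : ℤ) = j % i := Int.toNat_of_nonneg (Int.emod_nonneg j hi0.ne')
      rw [← zpow_natCast, h2]
      have h3 : τ ^ j = τ ^ (j % (i : ℤ)) * τ ^ ((i : ℤ) * (j / i)) := by
        rw [← _root_.zpow_add]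
        congr 1
        rw [Int.emod_add_mul_ediv]
      rw [h3, AlgEquiv.mul_apply, hfixm]
  have h4 := Finset.card_le_card hsub
  rw [Multiset.toFinset_card_of_nodup hnodup, hcard] at h4
  have h5 := h4.trans Finset.card_image_le
  rw [Finset.card_range] at h5
  omega

/-- elements fixed by the Galois group -/
theorem mem_of_fixed {E : Type} [Field E] [CharZero E] (M : IntermediateField E (AlgebraicClosure E))
    {x : AlgebraicClosure E}
    (h : ∀ γ : AlgebraicClosure E ≃ₐ[M] AlgebraicClosure E, γ x = x) : x ∈ M := by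
  have h1 : x ∈ Set.range (algebraMap M (AlgebraicClosure E)) :=
    (InfiniteGalois.mem_range_algebraMap_iff_fixed x).mpr h
  obtain ⟨y, rfl⟩ := h1
  exact y.2

/-- the automorphisms over `E` -/
def Aut (E : Type) [Field E] : Set (AlgebraicClosure E ≃+* AlgebraicClosure E) :=
  {τ | ∀ x : E, τ (algebraMap E _ x) = algebraMap E _ x}

theorem map_aut {E : Type} [Field E] {τ : AlgebraicClosure E ≃+* AlgebraicClosure E}
    (hτ : τ ∈ Aut E) (P : E[X]) : (P.map (algebraMap E (AlgebraicClosure E))).map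
      (τ : AlgebraicClosure E →+* AlgebraicClosure E) =
        P.map (algebraMap E (AlgebraicClosure E)) := by
  rw [Polynomial.map_map]
  congr 1
  ext x
  exact hτ x

/-- a representation of a topological group with open kernel is continuous -/
theorem continuous_of_ker {G : Type} [Group G] [TopologicalSpace G] [IsTopologicalGroup G]
    {K : Type} [Field K] [TopologicalSpace K] {n : ℕ} (ρ : G →* GL (Fin n) K)
    (h : IsOpen (ρ.ker : Set G)) : Continuous fun x => (ρ x : Matrix (Fin n) (Fin n) K) := by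
  rw [continuous_iff_continuousAt]
  intro x
  have h1 : ∀ᶠ y in 𝓝 x, x⁻¹ * y ∈ (ρ.ker : Set G) := by
    have h2 : ContinuousAt (fun y : G => x⁻¹ * y) x := (continuous_const.mul continuous_id).continuousAt
    refine h2.eventually (h.mem_nhds ?_)
    change x⁻¹ * x ∈ (ρ.ker : Set G)
    rw [inv_mul_cancel]
    exact ρ.ker.one_mem
  refine (continuousAt_const (y := (ρ x : Matrix (Fin n) (Fin n) K))).congr ?_
  filter_upwards [h1] with y hy
  have h3 : ρ (x⁻¹ * y) = 1 := hy
  rw [map_mul, map_inv, inv_mul_eq_one] at h3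
  rw [h3]

/-- the kernel of an extension of a representation with open kernel is open -/
theorem isOpen_ker {G : Type} [Group G] [TopologicalSpace G] [IsTopologicalGroup G]
    {K : Type} [Field K] {n : ℕ} {H : Subgroup G} (hH : IsOpen (H : Set G))
    {ρ : H →* GL (Fin n) K} (h : IsOpen (ρ.ker : Set H)) {R : G →* GL (Fin n) K}
    (hR : ∀ (x : G) (hx : x ∈ H), R x = ρ ⟨x, hx⟩) : IsOpen (R.ker : Set G) := by
  have h1 : IsOpen ((ρ.ker.map H.subtype : Subgroup G) : Set G) := by
    rw [Subgroup.coe_map]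
    exact hH.isOpenMap_subtype_val _ h
  refine Subgroup.isOpen_mono ?_ h1
  rintro _ ⟨y, hy, rfl⟩
  rw [MonoidHom.mem_ker]
  have h2 := hR (y : G) y.2
  change R (y : G) = 1
  rw [h2]
  exact hy

variable {F : Type} [Field F] [NumberField F] {n : ℕ}

/-- **Descent of representations with open kernel.** -/
theorem descent_glob (hn : 0 < n) {E : Type} [Field E] [CharZero E]
    {P : HeightOneSpectrum (𝓞 F) → E[X]} {V : Set (HeightOneSpectrum (𝓞 F))}
    (hV : Tendsto (dens fun v => v ∉ V) atTop (𝓝 0))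
    (hP1 : ∀ v ∈ V, (P v).Monic) (hPn : ∀ v ∈ V, (P v).natDegree = n)
    {H : Subgroup (GK F)} (hT : Tower (Aut E) n Set.univ H) (hH : IsOpen (H : Set (GK F)))
    {ρ : H →* GL (Fin n) (AlgebraicClosure E)} (hρ : IsOpen (ρ.ker : Set H)) (hss : Semis ρ)
    (hr : ∀ v ∈ V, Right (fun v => (P v).map (algebraMap E (AlgebraicClosure E))) H ρ v) :
    ∃ R : GK F →* GL (Fin n) (AlgebraicClosure E), IsOpen (R.ker : Set (GK F)) ∧
      (∀ (x : GK F) (hx : x ∈ H), R x = ρ ⟨x, hx⟩) ∧ Semis R ∧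
      (∀ v ∈ V, ∀ σ : GK F, IsFrob v σ →
        (R σ : Matrix (Fin n) (Fin n) (AlgebraicClosure E)).charpoly =
          (P v).map (algebraMap E (AlgebraicClosure E))) ∧
      (∀ v ∈ V, Unr H ρ v → ∀ Q, Above v Q → ∀ σ : GK F, FrobPow v Q 0 σ → R σ = 1) ∧
      (∀ R' : GK F →* GL (Fin n) (AlgebraicClosure E),
        (∀ (x : GK F) (hx : x ∈ H), R' x = ρ ⟨x, hx⟩) →
        (∀ v ∈ V, ∀ σ : GK F, IsFrob v σ →
          (R' σ : Matrix (Fin n) (Fin n) (AlgebraicClosure E)).charpoly =
            (P v).map (algebraMap E (AlgebraicClosure E))) → R' = R) ∧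
      (∀ X : Matrix (Fin n) (Fin n) (AlgebraicClosure E),
        (∀ x, (ρ x : Matrix (Fin n) (Fin n) (AlgebraicClosure E)) * X = X * ρ x) →
          ∀ x, (R x : Matrix (Fin n) (Fin n) (AlgebraicClosure E)) * X = X * R x) ∧
      (∀ M : IntermediateField E (AlgebraicClosure E),
        (∀ x i j, (ρ x : Matrix (Fin n) (Fin n) (AlgebraicClosure E)) i j ∈ M) →
        ∀ x i j, (R x : Matrix (Fin n) (Fin n) (AlgebraicClosure E)) i j ∈ M) := by
  classical
  let K := AlgebraicClosure E
  let _ : TopologicalSpace K := ⊥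
  have _ : DiscreteTopology K := ⟨rfl⟩
  let T : HeightOneSpectrum (𝓞 F) → K[X] := fun v =>
    if v ∈ V then (P v).map (algebraMap E K) else X ^ n
  have hTV : ∀ v ∈ V, T v = (P v).map (algebraMap E K) := fun v hv => if_pos hv
  have hTV' : ∀ v, v ∉ V → T v = X ^ n := fun v hv => if_neg hv
  have hT1 : ∀ v, (T v).Monic := by
    intro v
    by_cases hv : v ∈ V
    · rw [hTV v hv]
      exact (hP1 v hv).map _
    · rw [hTV' v hv]
      exact monic_X_pow n
  have hTn : ∀ v, (T v).natDegree = n := by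
    intro v
    by_cases hv : v ∈ V
    · rw [hTV v hv, Polynomial.natDegree_map, hPn v hv]
    · rw [hTV' v hv, natDegree_X_pow]
  have hTτ : ∀ τ ∈ Aut E, ∀ v, (T v).map (τ : K →+* K) = T v := by
    intro τ hτ v
    by_cases hv : v ∈ V
    · rw [hTV v hv]
      exact map_aut hτ _
    · rw [hTV' v hv, Polynomial.map_pow, map_X]
  have hRt : ∀ v ∈ V, Right T H ρ v := by
    intro v hv Q hQ m hm σ h hfr
    rw [hTV v hv]
    exact hr v hv Q hQ m hm σ h hfr
  have hB : Tendsto (dens fun v => ¬ Right T H ρ v) atTop (𝓝 0) :=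
    squeeze_zero (fun N => dens_nonneg _ N)
      (fun N => dens_mono (fun v hv hvV => hv (hRt v hvV)) N) hV
  obtain ⟨R, h1, h2, h3, h4, h5⟩ := descent_ss (K := K) hn (𝒯 := Aut E)
    (fun τ _ => continuous_of_discreteTopology) hT1 hTn hTτ hT hH ρ (continuous_of_ker ρ hρ) hss hB
  have hch : ∀ v, ¬ v ∉ V → ∀ σ : GK F, IsFrob v σ →
      (R σ : Matrix (Fin n) (Fin n) K).charpoly = T v := fun v hv σ hσ =>
    charpoly_of_right hT1 (h4 v (hRt v (not_not.mp hv))) hσ
  have huniq : ∀ R' : GK F →* GL (Fin n) K, (∀ (x : GK F) (hx : x ∈ H), R' x = ρ ⟨x, hx⟩) →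
      (∀ v ∈ V, ∀ σ : GK F, IsFrob v σ →
        (R' σ : Matrix (Fin n) (Fin n) K).charpoly = (P v).map (algebraMap E K)) → R' = R := by
    intro R' hR' hR'v
    ext1 x
    exact tower_small hTn hTτ hV hch (fun v hv σ hσ => by
      rw [hTV v (not_not.mp hv)]
      exact hR'v v (not_not.mp hv) σ hσ) hT hH (fun x hx => by rw [hR' x hx, h2 x hx]) x
  refine ⟨R, isOpen_ker hH hρ h2, h2, h3, fun v hv σ hσ => ?_, fun v hv hu => h5 v (hRt v hv) hu,
    huniq, ?_, ?_⟩
  · rw [hch v (not_not.mpr hv) σ hσ, hTV v hv]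
  · intro X hX
    exact tower_comm hTn hTτ hV hch hT hH fun x hx => by
      rw [h2 x hx]
      exact hX ⟨x, hx⟩
  · intro M hM x i j
    apply mem_of_fixed M
    intro γ
    have hγ : γ.toRingEquiv ∈ Aut E := fun y => by
      have h6 := γ.commutes (algebraMap E M y)
      rw [← IsScalarTower.algebraMap_apply] at h6
      exact h6
    have h6 := huniq ((mp n γ.toRingEquiv).comp R) (fun y hy => by
      rw [MonoidHom.comp_apply, h2 y hy]
      apply Units.ext
      rw [mp_apply]
      ext i j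
      exact γ.commutes ⟨_, hM ⟨y, hy⟩ i j⟩) (fun v hv σ hσ => by
      rw [MonoidHom.comp_apply, charpoly_mp, hch v (not_not.mpr hv) σ hσ, hTτ _ hγ, hTV v hv])
    have h7 := DFunLike.congr_fun h6 x
    have h8 := congrArg (fun A : GL (Fin n) K => (A : Matrix (Fin n) (Fin n) K) i j) h7
    exact h8

end Run7.h427.CA
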