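import Pool.Agent.Run7.h427.CA.Glob

/-!
# Potential residual representations, and Artin motives
-/

set_option autoImplicit false

namespace Run7.h427.CA

open Matrix Topology Filter NumberField IsDedekindDomain Polynomial
open Run7.h427.CY Run7.h427.CZ
open Run7.h427.DS
open Pool.Agent.W401.Cheb Pool.Agent.W528.Ord
open scoped IntermediateField

variable {F E : Type} [Field F] [NumberField F] [Field E] [NumberField E] {n : ℕ}

/-- The Hecke polynomials are monic of degree `n`. -/
def IsMonic (Θ : HeckeSystem F E n) : Prop := ∀ v ∉ Θ.S, (Θ.T v).Monic ∧ (Θ.T v).natDegree = n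

/-- The subgroups `H` of `GK F` whose fixed fields can be reached from `F` by successive cyclic
extensions of good prime degrees. -/
inductive Reached (F : Type) [Field F] [NumberField F] (good : ℕ → Prop) : Subgroup (GK F) → Prop
  | base : Reached F good ⊤
  | step (H H' : Subgroup (GK F)) (p : ℕ) : good p → Reached F good H' → H ≤ H' →
      (H.subgroupOf H').Normal → H.relIndex H' = p → Reached F good H

/-- The base change to the field `F'` fixed by `H`, at the places of `F'` above the place `v` of `F`: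
the representation `ρ` of `H = Gal (F̄ / F')` is unramified at these places, and if `σ ∈ H` acts as the
`m`-th power of the Frobenius automorphism at `v`, `m > 0`, on the residue field of a place of `F̄` above
`v`, then the eigenvalues of `ρ σ` are the `m`-th powers of the roots of `P`. -/
def AttachedOver {k : Type} [Field k] (P : k[X]) (v : HeightOneSpectrum (𝓞 F))
    (H : Subgroup (GK F)) (ρ : H →* GL (Fin n) k) : Prop :=
  (∀ Q, Above v Q → ∀ (σ : GK F) (h : σ ∈ H), FrobPow v Q 0 σ → ρ ⟨σ, h⟩ = 1) ∧
    ∀ Q, Above v Q → ∀ m : ℕ, 0 < m → ∀ (σ : GK F) (h : σ ∈ H), FrobPow v Q m σ →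
      (ρ ⟨σ, h⟩ : Matrix (Fin n) (Fin n) k).charpoly.aroots (AlgebraicClosure k) =
        (P.aroots (AlgebraicClosure k)).map fun a => a ^ m

/-- The prime number `p` is prime to the number of elements of `GL_m (k)`, `m ≤ n`, and to the
characteristic of the finite field `k`. -/
def GoodRes (k : Type) [Field k] (n p : ℕ) : Prop :=
  p.Prime ∧ ringChar k ≠ p ∧ ∀ i : ℕ, 1 ≤ i → i ≤ n → ¬ p ∣ Nat.card k ^ i - 1

/-- A **potential** representation mod `ℓ` which realises the system: an absolutely irreducible
representation `ρ`, over the finite field `k`, of the Galois group `H` of a field which is reached from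
`F` by cyclic extensions of good prime degrees, attached to the base change at the `v ∉ S` which do not
divide the characteristic of `k`. -/
structure PotModRep (Θ : HeckeSystem F E n) where
  /-- the finite field -/
  k : Type
  [fld : Field k]
  [fin : Finite k]
  /-- the reduction of the coefficients -/
  φ : 𝓞 E →+* k
  /-- the Galois group of the extension field -/
  H : Subgroup (GK F)
  isOpen : IsOpen (H : Set (GK F))
  reached : Reached F (GoodRes k n) H
  /-- the representation -/
  ρ : H →* GL (Fin n) k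
  isOpen_ker : IsOpen (ρ.ker : Set H)
  spans : Spans ρ
  match_of : ∀ v ∉ Θ.S, ((ringChar k : ℕ) : 𝓞 F) ∉ v.asIdeal → AttachedOver ((Θ.T v).map φ) v H ρ

attribute [instance] PotModRep.fld PotModRep.fin

/-- the primes `𝔩` of `E` for which there is a potential representation modulo `𝔩` -/
def potPrimes (Θ : HeckeSystem F E n) : Set (HeightOneSpectrum (𝓞 E)) :=
  {𝔩 | ∃ r : PotModRep Θ, RingHom.ker r.φ = 𝔩.asIdeal}

theorem semis_of_spans {G k : Type} [Group G] [Field k] {ρ : G →* GL (Fin n) k} (h : Spans ρ) :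
    Semis ρ := by
  intro W hW
  have h1 : ∀ A : Matrix (Fin n) (Fin n) k, ∀ w ∈ W, A *ᵥ w ∈ W := by
    intro A w hw
    have hA : A ∈ Submodule.span k (Set.range fun g => (ρ g : Matrix (Fin n) (Fin n) k)) := by
      rw [h]
      exact Submodule.mem_top
    induction hA using Submodule.span_induction with
    | mem x hx =>
      obtain ⟨g, rfl⟩ := hx
      exact hW g w hw
    | zero => rw [Matrix.zero_mulVec]; exact W.zero_mem
    | add x y _ _ hx hy => rw [Matrix.add_mulVec]; exact W.add_mem hx hy
    | smul a x _ hx => rw [Matrix.smul_mulVec]; exact W.smul_mem a hx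
  by_cases hb : W = ⊥
  · refine ⟨⊤, fun _ _ _ => Submodule.mem_top, ?_⟩
    rw [hb]
    exact isCompl_bot_top
  · obtain ⟨w, hw, hw0⟩ := Submodule.exists_mem_ne_zero_of_ne_bot hb
    have htop : W = ⊤ := by
      rw [eq_top_iff]
      intro u _
      obtain ⟨j, hj⟩ : ∃ j, w j ≠ 0 := by
        by_contra hcon
        push Not at hcon
        exact hw0 (funext hcon)
      have h2 := h1 (Matrix.of fun i l => if l = j then (w j)⁻¹ * u i else 0) w hw
      have h3 : (Matrix.of fun i l => if l = j then (w j)⁻¹ * u i else 0) *ᵥ w = u := by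
        funext i
        rw [Matrix.mulVec, dotProduct]
        simp only [Matrix.of_apply, ite_mul, zero_mul, Finset.sum_ite_eq', Finset.mem_univ, if_true]
        field_simp
      rwa [h3] at h2
    refine ⟨⊥, fun g w' hw' => ?_, ?_⟩
    · rw [Submodule.mem_bot] at hw' ⊢
      rw [hw', Matrix.mulVec_zero]
    · rw [htop]
      exact isCompl_top_bot

theorem matches_of {Θ : HeckeSystem F E n} {K : Type} [Field K] {φ : 𝓞 E →+* K}
    {R : GK F →* GL (Fin n) K} {v : HeightOneSpectrum (𝓞 F)}
    (h1 : ∀ Q, Above v Q → ∀ σ : GK F, FrobPow v Q 0 σ → R σ = 1)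
    (h2 : ∀ σ : GK F, IsFrob v σ → (R σ : Matrix (Fin n) (Fin n) K).charpoly = (Θ.T v).map φ) :
    Θ.Matches φ R v := by
  refine ⟨fun τ hτ => ?_, h2⟩
  obtain ⟨Q, hQ1, hQ2, hQ3⟩ := hτ
  exact h1 Q ⟨hQ1, hQ2⟩ τ fun x => by
    rw [pow_zero, pow_one]
    exact hQ3 x

theorem ne_zero_of_ne {k : Type} [Field k] {p : ℕ} (hp : p.Prime) (h : ringChar k ≠ p) :
    (p : AlgebraicClosure k) ≠ 0 := by
  intro h0
  have h1 : algebraMap k (AlgebraicClosure k) (p : k) = 0 := by rw [map_natCast, h0]
  rw [map_eq_zero] at h1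
  have h2 := (ringChar.spec k p).mp h1
  rcases (Nat.dvd_prime hp).mp h2 with h3 | h3
  · have := ringChar.charP k
    rw [h3] at this
    exact CharP.false_of_nontrivial_of_char_one (R := k)
  · exact h h3

theorem tower_fin {k : Type} [Field k] [Finite k] {V : Set (HeightOneSpectrum (𝓞 F))}
    {H : Subgroup (GK F)} (h : Reached F (GoodRes k n) H) : Tower {fr k} n V H := by
  induction h with
  | base => exact Tower.top
  | step H H' p hp _ hle hn hi ih =>
    exact Tower.step H H' p (fr k) rfl (good_of_fin ⟨hp.1, Or.inr hp.2.2⟩) ih hle hn hi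
      (Or.inl (ne_zero_of_ne hp.1 hp.2.1))

/-- the places above a positive integer -/
theorem finite_bad (Θ : HeckeSystem F E n) {q : ℕ} (hq : q ≠ 0) :
    {v : HeightOneSpectrum (𝓞 F) | v ∉ Θ.S ∧ ((q : ℕ) : 𝓞 F) ∉ v.asIdeal}ᶜ.Finite := by
  have h1 : ((q : ℕ) : 𝓞 F) ≠ 0 := Nat.cast_ne_zero.mpr hq
  refine (Θ.finite_S.union (finite_mem h1)).subset ?_
  intro v hv
  rw [Set.mem_compl_iff, Set.mem_ofPred_eq, not_and, not_not] at hv
  by_cases h : v ∈ Θ.S
  · exact Or.inl h
  · exact Or.inr (hv h)

/-- a potential residual representation gives a residual representation -/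
theorem modPrimes_of_pot (Θ : HeckeSystem F E n) (hn : 0 < n) (hM : IsMonic Θ) :
    potPrimes Θ ⊆ Θ.modPrimes := by
  rintro 𝔩 ⟨r, hr⟩
  let k := r.k
  let _ : TopologicalSpace k := ⊥
  have _ : DiscreteTopology k := ⟨rfl⟩
  have hchar : ringChar k ≠ 0 := by
    intro h0
    have h1 : CharP k 0 := h0 ▸ ringChar.charP k
    have h2 : CharZero k := CharP.charP_to_charZero k
    have : Infinite k := inferInstance
    exact not_finite k
  let V : Set (HeightOneSpectrum (𝓞 F)) := {v | v ∉ Θ.S ∧ ((ringChar k : ℕ) : 𝓞 F) ∉ v.asIdeal}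
  have hV : Vᶜ.Finite := finite_bad Θ hchar
  obtain ⟨R, hRc, hRH, hRs, hRv⟩ := descent_fin (k := k) hn (P := fun v => (Θ.T v).map r.φ) (V := V)
    hV (fun v hv => (hM v hv.1).1.map _)
    (fun v hv => by rw [(hM v hv.1).1.natDegree_map, (hM v hv.1).2])
    (tower_fin r.reached) r.isOpen (continuous_of_ker r.ρ r.isOpen_ker) r.spans
    (fun v hv Q hQ m hm σ h hfr => (r.match_of v hv.1 hv.2).2 Q hQ m hm σ h hfr)
    (fun v hv Q hQ σ h hfr => (r.match_of v hv.1 hv.2).1 Q hQ σ h hfr)
  exact ⟨⟨k, r.φ, R, isOpen_ker r.isOpen r.isOpen_ker hRH, semis_of_spans hRs, fun v hv hv' =>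
    matches_of (hRv v ⟨hv, hv'⟩).1 (hRv v ⟨hv, hv'⟩).2⟩, hr⟩

/-- roots in an algebraically closed field -/
theorem roots_of_aroots {K : Type} [Field K] [IsAlgClosed K] {P Q : K[X]} {m : ℕ}
    (h : Q.aroots (AlgebraicClosure K) = (P.aroots (AlgebraicClosure K)).map fun a => a ^ m) :
    Q.roots = P.roots.map fun a => a ^ m := by
  have hf := (algebraMap K (AlgebraicClosure K)).injective
  rw [aroots_def, aroots_def, (IsAlgClosed.splits Q).roots_map, (IsAlgClosed.splits P).roots_map,
    Multiset.map_map] at h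
  apply Multiset.map_injective hf
  rw [h, Multiset.map_map]
  apply Multiset.map_congr rfl
  intro a _
  simp

end Run7.h427.CA
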